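import Pool.Agent.N869.GK.H.Tup
import Pool.Agent.N869.GK.L.Fin
import Pool.Agent.N869.GK.D.Des
import Pool.Agent.N572.GK.RAREG
import Pool.Agent.N195.GK.LAB
import Pool.Agent.N434.GK.RAM
import Pool.Agent.N263.GK.RK
import Pool.Agent.N595.GK.INJ
import Pool.Agent.N700.GK.INVUH
import Pool.Agent.N271.GK.INVAH
import Pool.Agent.N588.GK.LAAH
import Pool.Agent.N383.GK.BOXH
import Pool.Agent.N835.GK.SQH
import Pool.Agent.N803.GK.HALG
import Pool.Agent.N42.GK.Clsg
import Pool.Agent.N340.GK.ESTG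
import Pool.Agent.N27.GK.GEN
import Pool.Agent.N603.GK.HS
import Pool.Agent.N954.GK.QV
import Pool.Agent.N340.GK.LCG
import Pool.Agent.N592.GK.GOOD
import Pool.Agent.N413.GK.UNR
import Pool.Agent.N3.GK.W0
import Pool.Agent.N803.GK.EXT
import Pool.Agent.N803.GK.GR
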