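import Pool.Agent.N869.GK.A.Asy
import Pool.Agent.N869.GK.StmH

/-!
# Project GK: the averages from the parts, prescribed ranks for the systems
-/

set_option autoImplicit false
set_option linter.unusedSectionVars false

open scoped Classical

namespace Pool.Agent.N869.GK.H

open Finset
open Pool.Agent.Y703.CX (sm la jj XX eL zz kk)
open Pool.Agent.Y703.CQ (nr sg)
open Pool.Agent.N916.GB (Po SA S_BIL)
open Pool.Agent.N869.QT.L (prs ext Lc Fam)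
open Pool.Agent.N869.QT.G (sys exC pr Dep)
open Pool.Agent.N869.ZE (cnt lc BoxA OkP mrg EE S_ASYA RareA sys_congr pr_false pr_mono)
open Pool.Agent.N869.ZE.A (PairK bilK)
open Pool.Agent.N869.GK
open Pool.Agent.N869.GK.A (okG ndG_congr)

theorem gdH_congr {r : ℕ} {I Q : Type} {D : Par r} {lb : ℕ → Gr r} {ρ : I → ℕ} {E : I → Finset Q}
    {S : Finset ℕ} {γ γ' : ℕ → Q} (h : ∀ p ∈ S, γ p = γ' p) :
    (∀ a, Gk D lb nr (ρ a) (sys γ E S a)) ↔ ∀ a, Gk D lb nr (ρ a) (sys γ' E S a) :=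
  forall_congr' fun a => by rw [sys_congr h a]

/-- GK-ASYGH: the averages. -/
def S_ASYGH : Prop := ∀ (r : ℕ) (D : Par r), Ok D → ∀ e : ℕ, Rk D e →
  ∀ (M : ℕ) (lb : ℕ → Gr r), LabOk D M lb → ∀ (V : Type) [Fintype V] (lv : ℕ → V) (tv : V → Gr r)
  (Bad : Set V), (∀ p, Po p → p ∣ M → lv p ∈ Bad) → (∀ p, Po p → lb p = tv (lv p)) →
  ∀ (I Q : Type) [Fintype I] [Fintype Q] [Nonempty Q] (E : I → Finset Q), Fam E →
  ∀ ρ : I → ℕ, (∀ a, ρ a % 2 = e % 2) →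
  AsyE SA (fun a S => Gk D lb nr (ρ a) S) (∏ a, kap (ρ a)) lv (AdG tv) Bad E

/-- **GK-ASYGH.** -/
theorem t_ASYGH (hA : S_ASYA) (hB : S_BIL) (hL : S_LAH) (hSub : S_SUB) (hBx : S_BOXH)
    (hR : ∀ (r : ℕ) (D : Par r) (M : ℕ)
      (lb : ℕ → Gr r), LabOk D M lb → ∀ (Q : Type) [Fintype Q] [Nonempty Q] (K : ℕ) (ε : ℝ), 0 < ε →
      ∃ X₀ : ℕ, ∀ X : ℕ, X₀ ≤ X →
      ∑ S ∈ (SA X).filter (fun S => S.card ≤ kk X ∧ ∀ p ∈ S, ¬ p ∣ M),
        pr S (fun γ : ℕ → Q => ¬ NdG lb K γ (sm (zz X) S) (la (zz X) S)) ≤ ε * X)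
    (hkap : ∀ ρ, 0 ≤ kap ρ ∧ kap ρ ≤ 1) : S_ASYGH := by
  intro r D hD e he M lb hlb V _ lv tv Bad hBad htv I Q _ _ _ E hE ρ hρ P hP ε hε
  obtain ⟨C, hC⟩ := bilK hB
  obtain ⟨K, hK⟩ := hL r D hD e he I Q E hE ρ hρ (ε / 3) (by linarith)
  obtain ⟨B, hBB⟩ := hBx hSub r D M lb hlb I Q ρ E hE (ε / 3) K hK
  have hok := okG hBad htv hP
  have hrare : RareA lv P (NdG lb K) (ε / 3) := by
    obtain ⟨X₀, h0⟩ := hR r D M lb hlb Q K (ε / 3) (by linarith)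
    refine ⟨X₀, fun X hX => le_trans ?_ (h0 X hX)⟩
    have hsub : (SA X).filter (fun S => S.card ≤ kk X ∧ ∀ p ∈ S, ¬ p ∣ M) ⊆
        (SA X).filter (fun S => S.card ≤ kk X) := fun S hS => by
      rw [mem_filter] at hS ⊢
      exact ⟨hS.1, hS.2.1⟩
    have hz : ∀ S ∈ (SA X).filter (fun S => S.card ≤ kk X),
        S ∉ (SA X).filter (fun S => S.card ≤ kk X ∧ ∀ p ∈ S, ¬ p ∣ M) →
        pr S (fun γ : ℕ → Q => P (cnt (lc γ lv) S) ∧
          ¬ NdG lb K γ (sm (zz X) S) (la (zz X) S)) = 0 := by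
      intro S hS hS'
      rw [mem_filter] at hS hS'
      apply pr_false
      rintro γ ⟨h1, -⟩
      apply hS'
      refine ⟨hS.1, hS.2, ?_⟩
      have hSo : ∀ p ∈ S, Po p := by
        have := hS.1
        unfold SA at this
        rw [mem_filter] at this
        exact this.2.1
      exact (hok.2 γ S hSo h1).1
    rw [← sum_subset hsub hz]
    refine sum_le_sum fun S _ => pr_mono fun γ h => h.2
  obtain ⟨X₀, h0⟩ := hA Q V lv PairK C hC P (NdG lb K)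
    (fun γ S => ∀ a, Gk D lb nr (ρ a) (sys γ E S a))
    (∏ a, kap (ρ a)) (ε / 3) B (prod_nonneg fun a _ => (hkap (ρ a)).1)
    (prod_le_one (fun a _ => (hkap (ρ a)).1) fun a _ => (hkap (ρ a)).2) (by linarith)
    (fun S γ γ' h => gdH_congr h) (fun S₀ S₁ γ γ' h => ndG_congr h)
    (fun γ => hBB V lv P hok γ) hrare
  refine ⟨X₀, fun X hX => (h0 X hX).trans ?_⟩
  have : 3 * (ε / 3) * (X : ℝ) = ε * X := by ring
  linarith

end Pool.Agent.N869.GK.H
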