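import Pool.Agent.N869.GK.H.Parts

/-!
# Project GK: the law for the twists by the tuples of divisors
-/

set_option autoImplicit false
set_option linter.unusedVariables false
set_option linter.unusedSectionVars false

open scoped Classical

namespace Pool.Agent.N869.GK.H

open Finset Filter Topology
open Pool.Agent.Y703.CQ (nr)
open Pool.Agent.N916.GB (Po SA)
open Pool.Agent.N856.JL (sfp sfp_spec)
open Pool.Agent.N869.QT.L (Fam)
open Pool.Agent.N869.QT.G (sys exC pr Dep)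
open Pool.Agent.N869.ZE (cnt lc OkP mrg EE pr_congr)
open Pool.Agent.N869.ZE.A (lvB Indp)
open Pool.Agent.N869.GK
open Pool.Agent.N869.GK.A (bd ManyL AddL famT)
open Pool.Agent.N869.GK.D
open Pool.Agent.TH841.SH (SelG)

/-! ### The cumulative law -/

/-- disjoint events -/
theorem pr_sum {R Q β : Type} [Fintype Q] [Nonempty Q] {S : Finset R} {B : Finset β}
    {P : β → (R → Q) → Prop} (h : ∀ γ, ∀ b ∈ B, ∀ b' ∈ B, P b γ → P b' γ → b = b') :
    pr S (fun γ => ∃ b ∈ B, P b γ) = ∑ b ∈ B, pr S (P b) := by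
  unfold pr
  rw [← Finset.sum_div]
  congr 1
  rw [← Nat.cast_sum, ← card_biUnion]
  · congr 2
    ext c
    simp only [mem_filter, mem_univ, true_and, mem_biUnion]
  · intro b hb b' hb' hne
    rw [Function.onFun, Finset.disjoint_left]
    intro c hc hc'
    rw [mem_filter] at hc hc'
    exact hne (h _ b hb b' hb' hc.2 hc'.2)

/-- the ranks `j ≤ ρ` of the parity of `e` -/
def rg (e ρ : ℕ) : Finset ℕ := (range (ρ + 1)).filter fun j => j % 2 = e % 2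

/-- the distribution function -/
noncomputable def KC (e ρ : ℕ) : ℝ := ∑ j ∈ rg e ρ, kap j

/-- the rank is at most `ρ` -/
def Gc {r : ℕ} (D : Par r) (lb : ℕ → Gr r) (e ρ : ℕ) (S : Finset ℕ) : Prop :=
  ∃ j ∈ rg e ρ, Gk D lb nr j S

theorem gk_inj {r : ℕ} {D : Par r} {lb : ℕ → Gr r} {j j' : ℕ} {S : Finset ℕ}
    (h : Gk D lb nr j S) (h' : Gk D lb nr j' S) : j = j' := by
  have h1 : 2 ^ (j + 2) = 2 ^ (j' + 2) := h.symm.trans h'
  have := Nat.pow_right_injective le_rfl h1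
  omega

theorem kap_bd : ∀ ρ, 0 ≤ kap ρ ∧ kap ρ ≤ 1 := fun ρ => (Pool.Agent.N495.GK.t_KAP).2.1 ρ

theorem kc_bd (e : ℕ) : ∀ ρ, 0 ≤ KC e ρ ∧ KC e ρ ≤ 1 := by
  intro ρ
  refine ⟨sum_nonneg fun j _ => (kap_bd j).1, ?_⟩
  have h := (Pool.Agent.N495.GK.t_KAP).2.2 (e % 2) (Nat.mod_lt _ two_pos)
  have h1 : KC e ρ ≤ ∑ j ∈ range (ρ + 1), kap (2 * j + e % 2) := by
    unfold KC
    have h2 : (rg e ρ) ⊆ (range (ρ + 1)).image fun j => 2 * j + e % 2 := by
      intro j hj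
      unfold rg at hj
      rw [mem_filter, mem_range] at hj
      rw [mem_image]
      refine ⟨j / 2, mem_range.2 (by omega), by omega⟩
    refine (sum_le_sum_of_subset_of_nonneg h2 fun j _ _ => (kap_bd j).1).trans (le_of_eq ?_)
    rw [sum_image]
    intro x _ y _ hxy
    have : 2 * x + e % 2 = 2 * y + e % 2 := hxy
    omega
  exact h1.trans (sum_le_hasSum _ (fun j _ => (kap_bd _).1) h)

theorem asyC {r : ℕ} {D : Par r} (hD : Ok D) {e : ℕ} (he : Rk D e) {M : ℕ} {lb : ℕ → Gr r}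
    (hlb : LabOk D M lb) : AsyH (KC e) (Gc D lb e) M lb := by
  intro I Q _ _ _ E hE ρ P hP ε hε
  set B : Finset (I → ℕ) := Fintype.piFinset fun a => rg e (ρ a) with hB
  have hmem : ∀ β ∈ B, ∀ a, β a ∈ rg e (ρ a) := fun β hβ => Fintype.mem_piFinset.1 hβ
  have hpar : ∀ β ∈ B, ∀ a, β a % 2 = e % 2 := by
    intro β hβ a
    have := hmem β hβ a
    unfold rg at this
    exact (mem_filter.1 this).2
  have hεB : 0 < ε / (B.card + 1) := by positivity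
  have key : ∀ β ∈ B, ∃ X₀ : ℕ, ∀ X : ℕ, X₀ ≤ X →
      |∑ S ∈ SA X, pr S (fun γ : ℕ → Q => P (cnt (lc γ (lvB lb (bd M))) S) ∧
        ∀ a, Gk D lb nr (β a) (sys γ E S a)) -
        (∏ a, kap (β a)) * ∑ S ∈ SA X, pr S (fun γ : ℕ → Q =>
          P (cnt (lc γ (lvB lb (bd M))) S))| ≤ ε / (B.card + 1) * X := by
    intro β hβ
    refine t_ASYGH' r D hD e he M lb hlb (Gr r × Bool) (lvB lb (bd M)) (fun x => x.1)
      {x | x.2 = true} ?_ (fun p _ => rfl) I Q E hE β (hpar β hβ) P hP _ hεB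
    intro p _ hpM
    show decide (p ∈ bd M) = true
    exact decide_eq_true hpM
  have key' : ∀ β : I → ℕ, ∃ X₀ : ℕ, β ∈ B → ∀ X : ℕ, X₀ ≤ X →
      |∑ S ∈ SA X, pr S (fun γ : ℕ → Q => P (cnt (lc γ (lvB lb (bd M))) S) ∧
        ∀ a, Gk D lb nr (β a) (sys γ E S a)) -
        (∏ a, kap (β a)) * ∑ S ∈ SA X, pr S (fun γ : ℕ → Q =>
          P (cnt (lc γ (lvB lb (bd M))) S))| ≤ ε / (B.card + 1) * X := by
    intro β
    by_cases h : β ∈ B
    · obtain ⟨X₀, h0⟩ := key β h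
      exact ⟨X₀, fun _ => h0⟩
    · exact ⟨0, fun h' => absurd h' h⟩
  choose X₀ hX₀ using key'
  refine ⟨B.sup X₀, fun X hX => ?_⟩
  have e1 : ∀ S : Finset ℕ, pr S (fun γ : ℕ → Q => P (cnt (lc γ (lvB lb (bd M))) S) ∧
      ∀ a, Gc D lb e (ρ a) (sys γ E S a)) = ∑ β ∈ B, pr S (fun γ : ℕ → Q =>
        P (cnt (lc γ (lvB lb (bd M))) S) ∧ ∀ a, Gk D lb nr (β a) (sys γ E S a)) := by
    intro S
    rw [← pr_sum]
    · refine pr_congr fun γ => ?_
      constructor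
      · rintro ⟨h1, h2⟩
        choose β hβ using h2
        exact ⟨β, Fintype.mem_piFinset.2 fun a => (hβ a).1, h1, fun a => (hβ a).2⟩
      · rintro ⟨β, h1, h2, h3⟩
        exact ⟨h2, fun a => ⟨β a, hmem β h1 a, h3 a⟩⟩
    · rintro γ β hβ β' hβ' ⟨-, h1⟩ ⟨-, h2⟩
      funext a
      exact gk_inj (h1 a) (h2 a)
  have e2 : ∏ a, KC e (ρ a) = ∑ β ∈ B, ∏ a, kap (β a) := by
    unfold KC
    rw [Finset.prod_univ_sum]
  have e3 : ∑ S ∈ SA X, pr S (fun γ : ℕ → Q => P (cnt (lc γ (lvB lb (bd M))) S) ∧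
      ∀ a, Gc D lb e (ρ a) (sys γ E S a)) = ∑ β ∈ B, ∑ S ∈ SA X, pr S (fun γ : ℕ → Q =>
        P (cnt (lc γ (lvB lb (bd M))) S) ∧ ∀ a, Gk D lb nr (β a) (sys γ E S a)) := by
    rw [sum_comm]
    exact sum_congr rfl fun S _ => e1 S
  rw [e3, e2, sum_mul, ← sum_sub_distrib]
  refine (abs_sum_le_sum_abs _ _).trans ?_
  refine (sum_le_sum fun β hβ => hX₀ β hβ X ((le_sup hβ).trans hX)).trans ?_
  rw [sum_const, nsmul_eq_mul]
  have h1 : (0 : ℝ) < (B.card : ℝ) + 1 := by positivity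
  have h2 : (B.card : ℝ) * (ε / ((B.card : ℝ) + 1) * X) =
      ((B.card : ℝ) / ((B.card : ℝ) + 1)) * (ε * X) := by
    field_simp
  rw [h2]
  have h3 : (B.card : ℝ) / ((B.card : ℝ) + 1) ≤ 1 := by
    rw [div_le_one h1]
    linarith
  have h4 : (0 : ℝ) ≤ ε * X := by positivity
  nlinarith

/-! ### The tuples -/

theorem manyL {r : ℕ} {D : Par r} {M : ℕ} {lb : ℕ → Gr r} (hlb : LabOk D M lb) : ManyL lb := by
  intro j k ε hε
  obtain ⟨a, ha, h⟩ := hlb.surj (Pi.single j 1)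
  obtain ⟨X₀, h0⟩ := Pool.Agent.N814.JL.FEW.t_FEWQ Pool.Agent.Y488.CX.t_SIE
    Pool.Agent.N814.JL.MER.t_MEQ M a hlb.pos ha 0 k ε hε
  refine ⟨X₀, fun X hX => le_trans (Nat.cast_le.2 (card_le_card fun S hS => ?_)) (h0 X hX)⟩
  rw [mem_filter] at hS ⊢
  refine ⟨hS.1, lt_of_le_of_lt (card_le_card fun p hp => ?_) (lt_of_lt_of_le hS.2 (by omega))⟩
  rw [mem_filter] at hp ⊢
  have hpS := (mem_filter.1 hp.1).1
  have hSo : ∀ p ∈ S, Po p := by
    have := hS.1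
    unfold SA at this
    rw [mem_filter] at this
    exact this.2.1
  exact ⟨hpS, h p (hSo p hpS).1 hp.2⟩

/-- the tuples of divisors of `f` in the class -/
def tps (b : Finset ℕ) (w : Bool) (n f : ℕ) : Set (Fin n → ℕ) :=
  {x | (∀ i, x i ∣ f ∧ x i % 8 = 1 ∧ ∀ l ∈ b, nr l (x i) = 0) ∧ Indp x ∧
    (w = true → ∀ p : ℕ, p.Prime → p ∣ f → ∃ i, p ∣ x i)}

/-- the 2-Selmer groups of the twists are small -/
def sml (e1 e2 e3 : ℤ) {n : ℕ} (ρ : Finset (Fin n) → ℕ) (𝒯 : Finset (Finset (Fin n)))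
    (x : Fin n → ℕ) : Prop :=
  ∀ T ∈ 𝒯, ∀ d : ℕ, d = sfp (∏ i ∈ T, x i) → (SelG (d * e1) (d * e2) (d * e3)).Finite ∧
    (SelG (d * e1) (d * e2) (d * e3)).ncard ≤ 2 ^ (ρ T + 2)

/-- the conclusion for `f` -/
def Big (b : Finset ℕ) (e1 e2 e3 : ℤ) (e : ℕ) (w : Bool) {n : ℕ} (ρ : Finset (Fin n) → ℕ)
    (𝒯 : Finset (Finset (Fin n))) (δ : ℝ) (f : ℕ) : Prop :=
  (tps b w n f).Finite ∧ 0 < (tps b w n f).ncard ∧
    ∏ T ∈ 𝒯, KC e (ρ T) - δ ≤
      ({x ∈ tps b w n f | sml e1 e2 e3 ρ 𝒯 x}.ncard : ℝ) / ((tps b w n f).ncard : ℝ)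

theorem cop_of_dvd {d f M : ℕ} (h : d ∣ f) (hf : f.Coprime M) : d.Coprime M :=
  Nat.Coprime.coprime_dvd_left h hf

section lab

variable {r : ℕ} {M : ℕ} {L : ℕ → Gr r}

theorem z2_add (x : Gr r) : x + x = 0 := by
  funext i
  show x i + x i = 0
  generalize x i = z
  revert z
  decide

theorem L_one (hadd : ∀ u w : ℕ, u.Coprime M → w.Coprime M → L (u * w) = L u + L w) : L 1 = 0 := by
  have h := hadd 1 1 (Nat.coprime_one_left _) (Nat.coprime_one_left _)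
  rw [one_mul, z2_add] at h
  exact h

theorem L_prod (hadd : ∀ u w : ℕ, u.Coprime M → w.Coprime M → L (u * w) = L u + L w) {ι : Type}
    (s : Finset ι) (x : ι → ℕ) (hx : ∀ i ∈ s, (x i).Coprime M) :
    L (∏ i ∈ s, x i) = ∑ i ∈ s, L (x i) := by
  induction s using Finset.induction_on with
  | empty =>
    rw [prod_empty, sum_empty]
    exact L_one hadd
  | insert i s hi ih =>
    rw [prod_insert hi, sum_insert hi, hadd _ _ (hx i (mem_insert_self i s))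
      (Nat.Coprime.prod_left fun j hj => hx j (mem_insert_of_mem hj)),
      ih fun j hj => hx j (mem_insert_of_mem hj)]

theorem L_sfp (hadd : ∀ u w : ℕ, u.Coprime M → w.Coprime M → L (u * w) = L u + L w) {m : ℕ}
    (hm : 0 < m) (hc : m.Coprime M) : L (sfp m) = L m ∧ (sfp m).Coprime M := by
  obtain ⟨s, hs, h1, h2, h3⟩ := sfp_spec hm
  have c1 : (sfp m).Coprime M := cop_of_dvd ⟨s ^ 2, h1.symm⟩ hc
  have c2 : s.Coprime M := cop_of_dvd ⟨sfp m * s, h1.symm.trans (by ring)⟩ hc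
  refine ⟨?_, c1⟩
  have h4 : L m = L (sfp m) + (L s + L s) := by
    conv_lhs => rw [← h1, sq]
    rw [hadd _ _ c1 (Nat.Coprime.mul_left c2 c2), hadd _ _ c2 c2]
  rw [h4, z2_add, add_zero]

end lab

/-- **The law.** -/
theorem core {b : Finset ℕ} {e1 e2 e3 : ℤ} (hC : Crv b e1 e2 e3) {k e : ℕ}
    (hcard : (SelG e1 e2 e3).ncard = 2 ^ (2 * k + e)) (w : Bool) (n : ℕ) (hn : w = true → 2 ≤ n)
    (𝒯 : Finset (Finset (Fin n))) (h𝒯 : ∀ T ∈ 𝒯, T.Nonempty) (ρ : Finset (Fin n) → ℕ) {δ : ℝ}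
    (hδ : 0 < δ)
    (i1 : DecidablePred fun f : ℕ => (Squarefree f ∧ f.Coprime (MM b)) ∧
      Big b e1 e2 e3 e w ρ 𝒯 δ f)
    (i2 : DecidablePred fun f : ℕ => Squarefree f ∧ f.Coprime (MM b)) :
    Tendsto (fun X : ℕ => ((@Finset.filter ℕ (fun f => (Squarefree f ∧ f.Coprime (MM b)) ∧
      Big b e1 e2 e3 e w ρ 𝒯 δ f) i1 (Icc 1 X)).card : ℝ) /
      ((@Finset.filter ℕ (fun f => Squarefree f ∧ f.Coprime (MM b)) i2 (Icc 1 X)).card : ℝ))
      atTop (𝓝 1) := by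
  obtain ⟨r, g, D, hD, he, hlb, hadd, hz, hsel⟩ := t_DES' b e1 e2 e3 hC k e hcard
  have hr : 0 < r := by
    rcases Nat.eq_zero_or_pos r with h | h
    · exfalso
      subst h
      exact hD.ha (Subsingleton.elim _ _)
    · exact h
  have h2 : 2 ∣ MM b := ⟨4 * ∏ l ∈ b, l, by unfold MM; ring⟩
  have hAddL : AddL (MM b) (lam g) := by
    intro S hS
    refine L_prod hadd S (fun p => p) fun p hp => ?_
    exact (Nat.Prime.coprime_iff_not_dvd (hS p hp).1).2 (hS p hp).2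
  have key := tuples (Λ := ℕ) (c := KC e) (G := Gc D (lam g) e) (kc_bd e)
    Pool.Agent.N835.GK.t_SQH hr hlb.pos h2 (manyL hlb) hAddL (asyC hD he hlb) (b := w) (n := n) hn
    𝒯 h𝒯 ρ hδ (fun _ => Classical.propDecidable _) i2
  refine tendsto_of_tendsto_of_tendsto_of_le_of_le key tendsto_const_nhds ?_ ?_
  · intro X
    refine div_le_div_of_nonneg_right (Nat.cast_le.2 (card_le_card ?_)) (Nat.cast_nonneg _)
    intro f hf
    simp only [mem_filter] at hf ⊢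
    obtain ⟨hf0, ⟨hf1, hf2⟩, hf3, hf4, hf5⟩ := hf
    have efam : famT (lam g) w n f = tps b w n f := by
      ext x
      unfold famT tps
      simp only [Set.mem_setOf_eq]
      refine and_congr_left fun _ => ?_
      constructor
      · intro h i
        exact ⟨(h i).1, (hz (x i) (cop_of_dvd (h i).1 hf2)).1 (h i).2⟩
      · intro h i
        exact ⟨(h i).1, (hz (x i) (cop_of_dvd (h i).1 hf2)).2 (h i).2⟩
    rw [efam] at hf3 hf4 hf5
    refine ⟨hf0, ⟨hf1, hf2⟩, hf3, hf4, ?_⟩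
    have h5 := (abs_le.1 hf5).1
    refine le_trans (b := ({x ∈ tps b w n f | goodT (Gc D (lam g) e) ρ 𝒯 x}.ncard : ℝ) /
      ((tps b w n f).ncard : ℝ)) (by linarith) ?_
    refine div_le_div_of_nonneg_right (Nat.cast_le.2 (Set.ncard_le_ncard ?_
      (hf3.subset fun x hx => hx.1))) (Nat.cast_nonneg _)
    rintro x ⟨hx1, hx2⟩
    refine ⟨hx1, ?_⟩
    intro T hT d hd
    have hxf : ∀ i, (x i).Coprime (MM b) := fun i => cop_of_dvd (hx1.1 i).1 hf2
    have hx0 : ∀ i, 0 < x i := fun i =>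
      Nat.pos_of_ne_zero fun h => hf1.ne_zero (zero_dvd_iff.1 (h ▸ (hx1.1 i).1))
    have hp0 : 0 < ∏ i ∈ T, x i := prod_pos fun i _ => hx0 i
    have hpc : (∏ i ∈ T, x i).Coprime (MM b) := Nat.Coprime.prod_left fun i _ => hxf i
    obtain ⟨hL, hc⟩ := L_sfp hadd hp0 hpc
    have hL0 : lam g (sfp (∏ i ∈ T, x i)) = 0 := by
      rw [hL, L_prod hadd T x fun i _ => hxf i]
      exact sum_eq_zero fun i _ => (hz (x i) (hxf i)).2 ⟨(hx1.1 i).2.1, (hx1.1 i).2.2⟩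
    obtain ⟨s, -, -, -, hsq⟩ := sfp_spec hp0
    obtain ⟨j, hj, hG⟩ := hx2 T hT
    obtain ⟨h6, h7⟩ := hsel (sfp (∏ i ∈ T, x i)) hsq hc hL0
    rw [hd]
    refine ⟨h6, h7.trans ?_⟩
    have h8 : {y | Sol D (lam g) nr (sfp (∏ i ∈ T, x i)).primeFactors y}.ncard = 2 ^ (j + 2) := hG
    rw [h8]
    unfold rg at hj
    rw [mem_filter, mem_range] at hj
    exact Nat.pow_le_pow_right two_pos (by omega)
  · intro X
    refine div_le_one_of_le₀ (Nat.cast_le.2 (card_le_card ?_)) (Nat.cast_nonneg _)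
    intro f hf
    simp only [mem_filter] at hf ⊢
    exact ⟨hf.1, hf.2.1⟩

end Pool.Agent.N869.GK.H
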