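import Pool.Agent.N869.GK.H.All
import Pool.Agent.N869.ZE.A.Fin

/-!
# Project GK: the parts

Linear algebra (variant with prescribed ranks): helpers 7, 55, 128, 195, 271, 286, 314, 344, 364, 386, 401,
495, 527, 558, 588, 693, 700, 701, 713, 814, 833, 853, 891, 901. Engine: helpers 42, 340, 383, 475, 572,
803, 835. Descent: helpers 3, 27, 195, 263, 340, 413, 434, 592, 595, 603, 803, 954. Averages: helpers 9, 19,
814 (projects ZE, GB, JL).
-/

set_option autoImplicit false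
set_option linter.unusedVariables false

open scoped Classical

namespace Pool.Agent.N869.GK.H

open Finset Filter Topology
open Pool.Agent.Y703.CQ (nr)
open Pool.Agent.N916.GB (Po SA)
open Pool.Agent.N869.QT.L (Fam)
open Pool.Agent.N869.QT.G (sys exC pr Dep)
open Pool.Agent.N869.ZE (cnt lc OkP mrg EE pr_congr)
open Pool.Agent.N869.ZE.A (lvB)
open Pool.Agent.N869.GK
open Pool.Agent.N869.GK.A (bd ManyL)
open Pool.Agent.N869.GK.D

theorem t_LAH' : S_LAH :=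
  Pool.Agent.N588.GK.t_LAAH t_MOM'
    (Pool.Agent.N271.GK.t_INVAH Pool.Agent.N700.GK.t_INVUH Pool.Agent.N693.GK.t_REF
      Pool.Agent.N495.GK.t_KAP)
    Pool.Agent.N713.GK.t_PAR Pool.Agent.N401.GK.t_ALTR Pool.Agent.N901.GK.t_AUTO
    Pool.Agent.N891.GK.t_TOR Pool.Agent.N558.GK.t_KC Pool.Agent.N853.GK.t_SUB

theorem t_ASYGH' : S_ASYGH :=
  t_ASYGH Pool.Agent.N869.ZE.A.t_ASYA Pool.Agent.N19.GB.t_BIL t_LAH' Pool.Agent.N853.GK.t_SUB
    Pool.Agent.N383.GK.BOXH.t_BOXH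
    (Pool.Agent.N572.GK.RAREG.t_RAREG Pool.Agent.N340.GK.t_ESTG Pool.Agent.N803.GK.t_HALG
      Pool.Agent.N42.GK.t_CLSG Pool.Agent.N814.JL.MER.t_MEQ)
    fun ρ => (Pool.Agent.N495.GK.t_KAP).2.1 ρ

theorem t_DES' : S_DES :=
  t_DES Pool.Agent.N27.GK.t_GEN Pool.Agent.N195.GK.LAB.t_LAB Pool.Agent.N603.GK.HS.t_HS
    Pool.Agent.N954.GK.t_QV Pool.Agent.N340.GK.LCG.t_LCG Pool.Agent.N592.GK.t_GOOD
    Pool.Agent.N413.GK.t_UNR Pool.Agent.N434.GK.t_RAM Pool.Agent.N3.GK.W0.t_W0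
    Pool.Agent.N803.GK.t_EXT Pool.Agent.N263.GK.t_RK Pool.Agent.N595.GK.t_INJ
    Pool.Agent.N853.GK.t_SUB

end Pool.Agent.N869.GK.H
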