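import Pool.Agent.N869.GK.A.Tup
import Pool.Agent.N869.GK.H.Asy

/-!
# Project GK: the colour layer, almost all sets, different properties for the systems
-/

set_option autoImplicit false
set_option linter.unusedSectionVars false
set_option linter.unusedVariables false

open scoped Classical

namespace Pool.Agent.N869.GK.H

open Finset Filter Topology
open Pool.Agent.Y703.CQ (nr)
open Pool.Agent.N916.GB (Po SA)
open Pool.Agent.N856.JL (sfp)
open Pool.Agent.N869.QT.L (Fam)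
open Pool.Agent.N869.QT.G (sys exC pr Dep)
open Pool.Agent.N869.ZE (cnt lc OkP mrg EE pr_congr pr_mono filter_card_inst)
open Pool.Agent.N869.ZE.A (fam_EE Cl Cov Many pr_cl pr_deg lvB PB PB_iff fam_left exists_all
  ncard_enc pr_eq tend0 card_SA' card_split tpl tpl_pf tpl_inj tpl_surj dvd_tpl od sfp_tpl sq_iff
  prod_pf ind sum_ind sum_single single_ne two_sum zero_sum sum_mul_z2 Indp tpl_sub sys_od
  single_inj)
open Pool.Agent.N869.GK
open Pool.Agent.N869.GK.A (okPG Dat bd QB ne_QB EB mem_EB covB ManyL DT famT AddL L_tpl low)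

variable {Λ : Type} {Q : Type} [Fintype Q] [Nonempty Q] {m r : ℕ}

/-- the averages, for the class of labels -/
def AsyH (c : Λ → ℝ) (Gd : Λ → Finset ℕ → Prop) (M : ℕ) (lb : ℕ → Gr r) : Prop :=
  ∀ (I Q : Type) [Fintype I] [Fintype Q] [Nonempty Q] (E : I → Finset Q), Fam E →
    ∀ ρ : I → Λ, AsyE SA (fun a => Gd (ρ a)) (∏ a, c (ρ a)) (lvB lb (bd M))
      (AdG fun x : Gr r × Bool => x.1) {x | x.2 = true} E

theorem sqE {c : Λ → ℝ} {Gd : Λ → Finset ℕ → Prop} (hSQ : S_SQH) {I I' : Type} [Fintype I]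
    (D : Dat I I' Q m r) (hA : AsyH c Gd D.M D.lb) (ρ : I → Λ) :
    SqE SA (fun a => Gd (ρ a)) (∏ a, c (ρ a)) (lvB D.lb (bd D.M))
      (AdG fun x : Gr r × Bool => x.1) {x | x.2 = true} D.E := by
  refine hSQ ℕ SA I Q (fun a => Gd (ρ a)) (∏ a, c (ρ a)) _ _ _ _ D.E ?_ ?_
  · have h := hA (I ⊕ I) (Q × Q) (EE D.E) (fam_EE D.fam D.nu) (Sum.elim ρ ρ)
    have e1 : (fun a : I ⊕ I => Gd (Sum.elim ρ ρ a)) =
        Sum.elim (fun a => Gd (ρ a)) fun a => Gd (ρ a) := by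
      funext a
      cases a <;> rfl
    have e2 : ∏ a : I ⊕ I, c (Sum.elim ρ ρ a) = (∏ a, c (ρ a)) * ∏ a, c (ρ a) := by
      rw [Fintype.prod_sum_type]
      rfl
    rw [e1, e2] at h
    exact h
  · exact hA I (Q × Q) _ (fam_left D.fam) ρ

/-- the three estimates -/
def Est {I I' : Type} [Fintype I] (D : Dat I I' Q m r) (c : Λ → ℝ) (Gd : Λ → Finset ℕ → Prop)
    (ρ : I → Λ) (δ : ℝ) (S : Finset ℕ) : Prop :=
  0 < pr S (D.C S) ∧
    |pr S (fun γ : ℕ → Q => D.C S γ ∧ ∀ a, Gd (ρ a) (sys γ D.E S a)) -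
      (∏ a, c (ρ a)) * pr S (D.C S)| ≤ δ * pr S (D.C S) ∧
    pr S (fun γ : ℕ → Q => D.C S γ ∧ ∃ a, sys γ D.E' S a = ∅) ≤ δ * pr S (D.C S)

theorem t_MQ {c : Λ → ℝ} {Gd : Λ → Finset ℕ → Prop} (hSQ : S_SQH) {I I' : Type} [Fintype I]
    [Fintype I'] (D : Dat I I' Q m r) (hA : AsyH c Gd D.M D.lb) (ρ : I → Λ) : ∀ δ ε : ℝ, 0 < δ → 0 < ε →
    ∃ X₀ : ℕ, ∀ X : ℕ, X₀ ≤ X →
    (((SA X).filter fun S => (∀ p ∈ S, p ∉ bd D.M) ∧ ¬ Est D c Gd ρ δ S).card : ℝ) ≤ ε * X := by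
  intro δ ε hδ hε
  have hq0 : 0 < Fintype.card Q := Fintype.card_pos
  have hq : (0 : ℝ) < Fintype.card Q := by exact_mod_cast hq0
  set q : ℝ := (Fintype.card Q : ℝ) with hqdef
  set B : ℝ := 1 / q ^ (r * D.k) with hB
  have hB0 : 0 < B := by positivity
  obtain ⟨X₁, hX₁⟩ := sqE hSQ D hA ρ (PB D.v fun _ _ => 0) (okPG D.hE) (δ * B) (ε / 3)
    (by positivity) (by positivity)
  -- the number of the elements
  have hr0 : 0 ≤ (q - 1) / q := by
    have : (1 : ℝ) ≤ q := by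
      rw [hqdef]
      exact_mod_cast hq0
    exact div_nonneg (by linarith) hq.le
  have hr1 : (q - 1) / q < 1 := by
    rw [div_lt_one hq]
    linarith
  obtain ⟨n, hn⟩ := exists_pow_lt_of_lt_one
    (show 0 < δ * B / ((Fintype.card I' : ℝ) + 1) by positivity) hr1
  have hk := exists_all (fun (j : Fin r) (X : ℕ) =>
    (((SA X).filter fun S => (S.filter fun p => D.lb p = Pi.single j 1).card <
      max n D.k).card : ℝ) ≤ ε / (3 * r) * X) fun j =>
    D.many j (max n D.k) (ε / (3 * r)) (by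
      have : (0 : ℝ) < r := by exact_mod_cast D.hr
      positivity)
  obtain ⟨X₂, hX₂⟩ := hk
  refine ⟨max X₁ X₂, fun X hX => ?_⟩
  have h1 := hX₁ X (le_trans (le_max_left _ _) hX)
  have h2 := hX₂ X (le_trans (le_max_right _ _) hX)
  have h3 : (((univ : Finset (Fin r)).biUnion fun j => (SA X).filter fun S =>
      (S.filter fun p => D.lb p = Pi.single j 1).card < max n D.k).card : ℝ) ≤ ε / 3 * X := by
    have h4 : (((univ : Finset (Fin r)).biUnion fun j => (SA X).filter fun S =>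
        (S.filter fun p => D.lb p = Pi.single j 1).card < max n D.k).card : ℝ) ≤
        ∑ j : Fin r, (((SA X).filter fun S =>
          (S.filter fun p => D.lb p = Pi.single j 1).card < max n D.k).card : ℝ) := by
      exact_mod_cast card_biUnion_le
    refine h4.trans ((sum_le_sum fun j _ => h2 j).trans (le_of_eq ?_))
    rw [sum_const, card_univ, Fintype.card_fin, nsmul_eq_mul]
    have : (r : ℝ) ≠ 0 := by exact_mod_cast D.hr.ne'
    field_simp
  have hX0 : (0 : ℝ) ≤ X := Nat.cast_nonneg _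
  refine le_trans ?_ (show ε / 3 * X + ε / 3 * X ≤ ε * X by nlinarith)
  refine le_trans ?_ (add_le_add h1 h3)
  rw [← Nat.cast_add, Nat.cast_le]
  refine le_trans (card_le_card ?_) (card_union_le _ _)
  intro S hS
  rw [mem_filter] at hS
  obtain ⟨hS, hSb, hbad⟩ := hS
  rw [mem_union, mem_filter, mem_biUnion]
  by_contra hcon
  apply hbad
  rw [not_or] at hcon
  obtain ⟨hc1, hc2⟩ := hcon
  have hc1' := not_lt.1 fun h => hc1 ⟨hS, h⟩
  have hc2' : ∀ j : Fin r, max n D.k ≤ (S.filter fun p => D.lb p = Pi.single j 1).card :=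
    fun j => not_lt.1 fun h => hc2 ⟨j, mem_univ _, mem_filter.2 ⟨hS, h⟩⟩
  have hMany : Many D.k D.lb S := fun j => le_trans (le_max_right _ _) (hc2' j)
  have hcardn : n ≤ S.card :=
    le_trans (le_trans (le_max_left _ _) (hc2' ⟨0, D.hr⟩)) (card_filter_le _ _)
  have hy : B ≤ pr S (D.C S) := pr_cl (fun _ _ => 0) hSb D.cov hMany
  have hlow : δ * B ≤ δ * pr S (D.C S) := mul_le_mul_of_nonneg_left hy hδ.le
  refine ⟨lt_of_lt_of_le hB0 hy, ?_, ?_⟩
  · have e1 : pr S (fun γ : ℕ → Q => PB D.v (fun _ _ => 0) (cnt (lc γ (lvB D.lb (bd D.M))) S) ∧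
        ∀ a, Gd (ρ a) (sys γ D.E S a)) =
        pr S (fun γ : ℕ → Q => D.C S γ ∧ ∀ a, Gd (ρ a) (sys γ D.E S a)) :=
      pr_congr fun γ => and_congr (PB_iff _ _ _ _ _ _) Iff.rfl
    have e2 : pr S (fun γ : ℕ → Q => PB D.v (fun _ _ => 0) (cnt (lc γ (lvB D.lb (bd D.M))) S)) =
        pr S (D.C S) := pr_congr fun γ => PB_iff _ _ _ _ _ _
    rw [e1, e2] at hc1'
    exact hc1'.trans hlow
  · refine le_trans (pr_mono fun γ h => h.2) ((pr_deg D.E' D.ne' S).trans (le_trans ?_ hlow))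
    rw [← hqdef]
    have h3 : ((q - 1) / q) ^ S.card ≤ ((q - 1) / q) ^ n := pow_le_pow_of_le_one hr0 hr1.le hcardn
    have h4 : (Fintype.card I' : ℝ) * ((q - 1) / q) ^ S.card ≤
        (Fintype.card I' : ℝ) * (δ * B / ((Fintype.card I' : ℝ) + 1)) :=
      mul_le_mul_of_nonneg_left (h3.trans hn.le) (Nat.cast_nonneg _)
    refine h4.trans ?_
    rw [mul_div_assoc']
    rw [div_le_iff₀ (by positivity)]
    have h5 : (0 : ℝ) ≤ δ * B := by positivity
    nlinarith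

/-- the proportion of the good elements of a family -/
theorem close_of {c : Λ → ℝ} (hc : ∀ a, 0 ≤ c a ∧ c a ≤ 1) {Gd : Λ → Finset ℕ → Prop}
    {I I' : Type} [Fintype I] [Fintype I'] (D : Dat I I' Q m r) (ρ : I → Λ) {S : Finset ℕ}
    {Ω : Type}
    {enc : (S → Q) → Ω} (hinj : Function.Injective enc) {fam : Set Ω}
    (hfam : ∀ ω ∈ fam, ∃ c, enc c = ω)
    (h1 : ∀ c, enc c ∈ fam ↔ D.C S (exC S c) ∧ ¬ ∃ a, sys (exC S c) D.E' S a = ∅)
    {good : Ω → Prop}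
    (h2 : ∀ c, D.C S (exC S c) → (good (enc c) ↔ ∀ a, Gd (ρ a) (sys (exC S c) D.E S a)))
    {δ : ℝ} (hδ : 0 < δ) (hδ1 : δ ≤ 1 / 2) (hp : Est D c Gd ρ δ S) :
    fam.Finite ∧ 0 < fam.ncard ∧
      |({ω ∈ fam | good ω}.ncard : ℝ) / (fam.ncard : ℝ) - ∏ a, c (ρ a)| ≤ 6 * δ := by
  obtain ⟨hp0, hp1, hp2⟩ := hp
  obtain ⟨hfin, hN⟩ := ncard_enc hinj fam hfam
  obtain ⟨-, hG⟩ := ncard_enc hinj {ω ∈ fam | good ω} fun ω h => hfam ω h.1
  have hq : (0 : ℝ) < (Fintype.card Q : ℝ) ^ S.card := by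
    have : (0 : ℝ) < Fintype.card Q := by exact_mod_cast Fintype.card_pos
    positivity
  set q : ℝ := (Fintype.card Q : ℝ) ^ S.card with hqd
  set nC := (univ.filter fun c : S → Q => D.C S (exC S c)).card with hnC
  set nG := (univ.filter fun c : S → Q => D.C S (exC S c) ∧
    ∀ a, Gd (ρ a) (sys (exC S c) D.E S a)).card with hnG
  set nD := (univ.filter fun c : S → Q => D.C S (exC S c) ∧
    ∃ a, sys (exC S c) D.E' S a = ∅).card with hnD
  have hcard : nC = fam.ncard + nD := by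
    rw [hN, hnC, hnD, ← card_union_of_disjoint]
    · congr 1
      ext c
      rw [mem_union, mem_filter, mem_filter, mem_filter, h1 c]
      have := mem_univ c
      tauto
    · rw [Finset.disjoint_left]
      intro c hc1 hc2
      rw [mem_filter] at hc1 hc2
      exact ((h1 c).1 hc1.2).2 hc2.2.2
  have hg1 : {ω ∈ fam | good ω}.ncard ≤ nG := by
    rw [hG, hnG]
    refine card_le_card fun c hc => ?_
    simp only [mem_filter] at hc ⊢
    obtain ⟨h3, h4, h5⟩ := hc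
    have h6 := ((h1 c).1 h4).1
    exact ⟨h3, h6, (h2 c h6).1 h5⟩
  have hg2 : nG ≤ {ω ∈ fam | good ω}.ncard + nD := by
    rw [hG, hnG, hnD]
    refine (card_le_card ?_).trans (card_union_le _ _)
    intro c hc
    simp only [mem_filter] at hc
    obtain ⟨h3, h4, h5⟩ := hc
    simp only [mem_union, mem_filter]
    by_cases h6 : ∃ a, sys (exC S c) D.E' S a = ∅
    · right
      exact ⟨h3, h4, h6⟩
    · left
      exact ⟨h3, (h1 c).2 ⟨h4, h6⟩, (h2 c h4).2 h5⟩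
  have eC : pr S (D.C S) = nC / q := pr_eq S (D.C S) _ _
  have eG : pr S (fun γ : ℕ → Q => D.C S γ ∧ ∀ a, Gd (ρ a) (sys γ D.E S a)) = nG / q :=
    pr_eq S (fun γ : ℕ → Q => D.C S γ ∧ ∀ a, Gd (ρ a) (sys γ D.E S a)) _ _
  have eD : pr S (fun γ : ℕ → Q => D.C S γ ∧ ∃ a, sys γ D.E' S a = ∅) = nD / q :=
    pr_eq S (fun γ : ℕ → Q => D.C S γ ∧ ∃ a, sys γ D.E' S a = ∅) _ _
  rw [eC] at hp0
  rw [eG, eC] at hp1
  rw [eD, eC] at hp2
  set c' := ∏ a, c (ρ a) with hcd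
  have hc0 : 0 ≤ c' := prod_nonneg fun a _ => (hc (ρ a)).1
  have hc1 : c' ≤ 1 := prod_le_one (fun a _ => (hc (ρ a)).1) fun a _ => (hc (ρ a)).2
  have hC0 : (0 : ℝ) < nC := by
    have := mul_pos hp0 hq
    rwa [div_mul_cancel₀ _ hq.ne'] at this
  have hp1' : |(nG : ℝ) - c' * nC| ≤ δ * nC := by
    have h3 : (nG : ℝ) / q - c' * (nC / q) = (nG - c' * nC) / q := by ring
    rw [h3, abs_div, abs_of_pos hq, div_le_iff₀ hq] at hp1
    refine hp1.trans (le_of_eq ?_)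
    field_simp
  have hp2' : (nD : ℝ) ≤ δ * nC := by
    rw [div_le_iff₀ hq] at hp2
    refine hp2.trans (le_of_eq ?_)
    field_simp
  have hN' : (nC : ℝ) = fam.ncard + nD := by exact_mod_cast hcard
  have hg1' : ({ω ∈ fam | good ω}.ncard : ℝ) ≤ nG := by exact_mod_cast hg1
  have hg2' : (nG : ℝ) ≤ {ω ∈ fam | good ω}.ncard + nD := by exact_mod_cast hg2
  have hD0 : (0 : ℝ) ≤ nD := Nat.cast_nonneg _
  set N : ℝ := (fam.ncard : ℝ) with hNd
  set G : ℝ := ({ω ∈ fam | good ω}.ncard : ℝ) with hGd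
  have hNlow : (nC : ℝ) ≤ 2 * N := by nlinarith
  have hNpos : 0 < N := by linarith
  have hNpos' : 0 < fam.ncard := by
    have : (0 : ℝ) < (fam.ncard : ℝ) := hNpos
    exact_mod_cast this
  refine ⟨hfin, hNpos', ?_⟩
  rw [div_sub' hNpos.ne', abs_div, abs_of_pos hNpos, div_le_iff₀ hNpos]
  obtain ⟨k1, k2⟩ := abs_le.1 hp1'
  have h7 : N * c' = c' * nC - c' * nD := by
    rw [hN']
    ring
  have h8 : c' * nD ≤ nD := by nlinarith
  have h9 : 0 ≤ c' * nD := mul_nonneg hc0 hD0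
  rw [h7, abs_le]
  constructor <;> nlinarith

/-- the general conclusion -/
theorem final {c : Λ → ℝ} {Gd : Λ → Finset ℕ → Prop} (hSQ : S_SQH) {I I' : Type} [Fintype I]
    [Fintype I'] (D : Dat I I' Q m r) (hA : AsyH c Gd D.M D.lb) (ρ : I → Λ) (hM : 0 < D.M) (h2 : 2 ∣ D.M)
    {δ : ℝ} (hδ : 0 < δ) {Cls : ℕ → Prop}
    (hCls : ∀ f : ℕ, Squarefree f → f.Coprime D.M → Est D c Gd ρ δ f.primeFactors → Cls f)
    (i1 : DecidablePred fun f : ℕ => (Squarefree f ∧ f.Coprime D.M) ∧ Cls f)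
    (i2 : DecidablePred fun f : ℕ => Squarefree f ∧ f.Coprime D.M) :
    Tendsto (fun X : ℕ => ((@Finset.filter ℕ (fun f => (Squarefree f ∧ f.Coprime D.M) ∧
      Cls f) i1 (Icc 1 X)).card : ℝ) /
      ((@Finset.filter ℕ (fun f => Squarefree f ∧ f.Coprime D.M) i2 (Icc 1 X)).card : ℝ))
      atTop (𝓝 1) := by
  have hl : ∃ (c : ℝ) (X₀ : ℕ), 0 < c ∧ ∀ X : ℕ, X₀ ≤ X → c * X ≤
      ((@Finset.filter ℕ (fun f => Squarefree f ∧ f.Coprime D.M) i2 (Icc 1 X)).card : ℝ) := by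
    obtain ⟨c, X₀, hc, h⟩ := low hM h2
    refine ⟨c, X₀, hc, fun X hX => (h X hX).trans (le_of_eq ?_)⟩
    exact congrArg (fun x : ℕ => (x : ℝ)) (filter_card_inst
      (fun f : ℕ => Squarefree f ∧ f.Coprime D.M) _ _ _)
  refine tend0 (B := fun X => ((Icc 1 X).filter fun f => (Squarefree f ∧ f.Coprime D.M) ∧
      ¬ Cls f).card) (fun X => card_split (fun f => Squarefree f ∧ f.Coprime D.M) Cls i2 i1 _
      (Icc 1 X)) hl fun ε hε => ?_
  obtain ⟨X₀, h0⟩ := t_MQ hSQ D hA ρ δ ε hδ hε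
  refine ⟨X₀, fun X hX => le_trans ?_ (h0 X hX)⟩
  rw [card_SA' X (fun S => (∀ p ∈ S, p ∉ bd D.M) ∧ ¬ Est D c Gd ρ δ S) _
    fun f => Classical.propDecidable _]
  refine Nat.cast_le.2 (card_le_card fun f hf => ?_)
  simp only [mem_filter] at hf ⊢
  obtain ⟨hf1, ⟨hf2, hf3⟩, hf4⟩ := hf
  refine ⟨hf1, ⟨hf2, ?_⟩, ?_, fun h => hf4 (hCls f hf2 hf3 h)⟩
  · by_contra h
    have h5 : 2 ∣ Nat.gcd f D.M := Nat.dvd_gcd (by omega) h2
    rw [Nat.coprime_iff_gcd_eq_one.1 hf3] at h5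
    omega
  · intro p hp hpM
    have hp' := Nat.mem_primeFactors.1 hp
    have h5 : p ∣ Nat.gcd f D.M := Nat.dvd_gcd hp'.2.1 hpM
    rw [Nat.coprime_iff_gcd_eq_one.1 hf3] at h5
    exact hp'.1.one_lt.ne' (Nat.dvd_one.1 h5)


/-- the good tuples -/
def goodT {n : ℕ} (G : Λ → Finset ℕ → Prop) (ρ : Finset (Fin n) → Λ) (𝒯 : Finset (Finset (Fin n)))
    (x : Fin n → ℕ) : Prop :=
  ∀ T ∈ 𝒯, G (ρ T) (sfp (∏ i ∈ T, x i)).primeFactors

/-- the main theorem for tuples -/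
theorem tuples {c : Λ → ℝ} {G : Λ → Finset ℕ → Prop} (hc : ∀ a, 0 ≤ c a ∧ c a ≤ 1)
    (hSQ : S_SQH) {r : ℕ}
    (hr : 0 < r) {L : ℕ → Gr r} {M : ℕ} (hM : 0 < M) (h2 : 2 ∣ M) (hLM : ManyL L)
    (hL : AddL M L) (hA : AsyH c G M L) {b : Bool} {n : ℕ} (hn : b = true → 2 ≤ n)
    (𝒯 : Finset (Finset (Fin n))) (h𝒯 : ∀ T ∈ 𝒯, T.Nonempty)
    (ρ : Finset (Fin n) → Λ) {δ₀ : ℝ} (hδ₀ : 0 < δ₀)
    (i1 : DecidablePred fun f : ℕ => (Squarefree f ∧ f.Coprime M) ∧
      ((famT L b n f).Finite ∧ 0 < (famT L b n f).ncard ∧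
        |({d ∈ famT L b n f | goodT G ρ 𝒯 d}.ncard : ℝ) / ((famT L b n f).ncard : ℝ) -
          ∏ T ∈ 𝒯, c (ρ T)| ≤ δ₀))
    (i2 : DecidablePred fun f : ℕ => Squarefree f ∧ f.Coprime M) :
    Tendsto (fun X : ℕ => ((@Finset.filter ℕ (fun f => (Squarefree f ∧ f.Coprime M) ∧
      ((famT L b n f).Finite ∧ 0 < (famT L b n f).ncard ∧
        |({d ∈ famT L b n f | goodT G ρ 𝒯 d}.ncard : ℝ) / ((famT L b n f).ncard : ℝ) -
          ∏ T ∈ 𝒯, c (ρ T)| ≤ δ₀)) i1 (Icc 1 X)).card : ℝ) /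
      ((@Finset.filter ℕ (fun f => Squarefree f ∧ f.Coprime M) i2 (Icc 1 X)).card : ℝ))
      atTop (𝓝 1) := by
  haveI : Nonempty (QB b n) := ne_QB hn
  obtain ⟨δ, hδ, hδ1, hδ2⟩ : ∃ δ : ℝ, 0 < δ ∧ δ ≤ 1 / 2 ∧ 6 * δ ≤ δ₀ := by
    refine ⟨min (δ₀ / 6) (1 / 2), lt_min (by positivity) (by norm_num), min_le_right _ _, ?_⟩
    have := min_le_left (δ₀ / 6) (1 / 2)
    linarith
  refine final hSQ (DT hr hLM M hn 𝒯 h𝒯) hA (fun a => ρ a.1) hM h2 hδ ?_ i1 i2
  intro f hf hfc hE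
  have hfc : f.Coprime M := hfc
  have hS : ∀ p ∈ f.primeFactors, p.Prime := fun p hp => Nat.prime_of_mem_primeFactors hp
  have hS' : ∀ p ∈ f.primeFactors, p.Prime ∧ ¬ p ∣ M := by
    intro p hp
    refine ⟨hS p hp, fun hpM => ?_⟩
    have h5 : p ∣ Nat.gcd f M := Nat.dvd_gcd (Nat.dvd_of_mem_primeFactors hp) hpM
    rw [Nat.coprime_iff_gcd_eq_one.1 hfc] at h5
    exact (hS p hp).one_lt.ne' (Nat.dvd_one.1 h5)
  have hvinj : Function.Injective fun q : QB b n => q.1 := fun _ _ h => Subtype.ext h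
  have key := close_of hc (DT hr hLM M hn 𝒯 h𝒯) (fun a => ρ a.1) (S := f.primeFactors)
    (enc := fun c => tpl (fun q : QB b n => q.1) f.primeFactors (exC f.primeFactors c))
    (tpl_inj hvinj hS) (fam := famT L b n f) ?_ ?_ (good := goodT G ρ 𝒯) ?_ hδ hδ1 hE
  · rw [prod_coe_sort 𝒯 fun T => c (ρ T)] at key
    exact ⟨key.1, key.2.1, key.2.2.trans hδ2⟩
  · -- surjectivity
    rintro d ⟨h1, h2, h3⟩
    have hsq : ∀ i, Squarefree (d i) := fun i => hf.squarefree_of_dvd (h1 i).1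
    refine tpl_surj hS hsq (fun i p hp => ?_) fun p hp => ?_
    · have hp' := Nat.mem_primeFactors.1 hp
      exact Nat.mem_primeFactors.2 ⟨hp'.1, hp'.2.1.trans (h1 i).1, hf.ne_zero⟩
    · refine ⟨⟨fun i => if p ∣ d i then 1 else 0, fun hb h => ?_⟩, fun i => ?_⟩
      · obtain ⟨i, hi⟩ := h3 hb p (hS p hp) (Nat.dvd_of_mem_primeFactors hp)
        have := congrFun h i
        rw [if_pos hi, Pi.zero_apply] at this
        exact absurd this (by decide)
      · show (if p ∣ d i then (1 : ZMod 2) else 0) = 1 ↔ p ∣ d i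
        split_ifs with h
        · exact ⟨fun _ => h, fun _ => rfl⟩
        · exact ⟨fun h' => absurd h' (by decide), fun h' => absurd h' h⟩
  · -- the class
    intro c
    set γ := exC f.primeFactors c with hγ
    have e0 : ∀ a : {T : Finset (Fin n) // T.Nonempty},
        sys γ (DT hr hLM M hn 𝒯 h𝒯).E' f.primeFactors a =
          od (fun q : QB b n => q.1) f.primeFactors γ a.1 := fun a => sys_od fun q => mem_EB
    have e1 : (∃ a : {T : Finset (Fin n) // T.Nonempty},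
        sys γ (DT hr hLM M hn 𝒯 h𝒯).E' f.primeFactors a = ∅) ↔
        ¬ Indp (tpl (fun q : QB b n => q.1) f.primeFactors γ) := by
      unfold Indp
      push Not
      constructor
      · rintro ⟨a, ha⟩
        exact ⟨a.1, a.2, (sq_iff hS a.1).2 ((e0 a).symm.trans ha)⟩
      · rintro ⟨T, hT, h⟩
        exact ⟨⟨T, hT⟩, (e0 ⟨T, hT⟩).trans ((sq_iff hS T).1 h)⟩
    rw [e1, not_not]
    have e2 : (DT hr hLM M hn 𝒯 h𝒯).C f.primeFactors γ ↔
        ∀ i, L (tpl (fun q : QB b n => q.1) f.primeFactors γ i) = 0 := by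
      constructor
      · rintro ⟨-, h⟩ i
        exact (L_tpl hL hS').2 fun j => h i j
      · intro h
        exact ⟨fun p hp => (hS' p hp).2, fun i j => (L_tpl hL hS').1 (h i) j⟩
    rw [e2]
    have hdvd : ∀ i, tpl (fun q : QB b n => q.1) f.primeFactors γ i ∣ f := by
      intro i
      conv_rhs => rw [← Nat.prod_primeFactors_of_squarefree hf]
      exact prod_dvd_prod_of_subset _ _ _ (filter_subset _ _)
    constructor
    · rintro ⟨h1, h2, -⟩
      exact ⟨fun i => (h1 i).2, h2⟩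
    · rintro ⟨h1, h2⟩
      refine ⟨fun i => ⟨hdvd i, h1 i⟩, h2, fun hb p hp hpf => ?_⟩
      have hpS : p ∈ f.primeFactors := Nat.mem_primeFactors.2 ⟨hp, hpf, hf.ne_zero⟩
      have h3 := (γ p).2 hb
      have h4 : ∃ i, (γ p).1 i ≠ 0 := by
        by_contra hcon
        push Not at hcon
        exact h3 (funext fun i => hcon i)
      obtain ⟨i, hi⟩ := h4
      refine ⟨i, (dvd_tpl hS hpS).2 ?_⟩
      show (γ p).1 i = 1
      revert hi
      generalize (γ p).1 i = z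
      revert z
      decide
  · -- the good tuples
    intro c hC
    set γ := exC f.primeFactors c with hγ
    have e3 : ∀ T : Finset (Fin n), (sfp (∏ i ∈ T, tpl (fun q : QB b n => q.1)
        f.primeFactors γ i)).primeFactors = od (fun q : QB b n => q.1) f.primeFactors γ T := by
      intro T
      rw [sfp_tpl hS T]
      exact (prod_pf fun p hp => hS p (mem_filter.1 hp).1).1
    have e4 : ∀ a : 𝒯, sys γ (DT hr hLM M hn 𝒯 h𝒯).E f.primeFactors a =
        od (fun q : QB b n => q.1) f.primeFactors γ a.1 := fun a => sys_od fun q => mem_EB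
    have e5 : (∀ a : 𝒯, G (ρ a.1) (sys γ (DT hr hLM M hn 𝒯 h𝒯).E f.primeFactors a)) ↔
        ∀ a : 𝒯, G (ρ a.1) (od (fun q : QB b n => q.1) f.primeFactors γ a.1) :=
      forall_congr' fun a => by rw [e4 a]
    rw [e5]
    constructor
    · intro h a
      have := h a.1 a.2
      rwa [e3] at this
    · intro h T hT
      show G (ρ T) (sfp (∏ i ∈ T, tpl (fun q : QB b n => q.1) f.primeFactors γ i)).primeFactors
      rw [e3]
      exact h ⟨T, hT⟩

end Pool.Agent.N869.GK.H
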